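import Pool.Agent.H47.UG.Ch
import Pool.Agent.H38.UG.Patch

/-!
# YB1: a cocycle of `GG (e-1)` which is a sum of sections of `GP e` and `GG (e-1)` is a coboundary
-/

set_option autoImplicit false

open MvPolynomial

namespace Pool.Agent.H47.UG

/-- The `L`-linear extension of a projection onto a subspace of polynomials over `K`. -/
theorem h46_ext {K L τ : Type} [Field K] [Field L] [Algebra K L] (S : Submodule K (MvPolynomial τ K)) :
    ∃ π : (τ →₀ ℕ) → MvPolynomial τ K, (∀ b, π b ∈ S) ∧ ∀ (r : ℕ) (a : Fin r → L)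
      (g : Fin r → MvPolynomial τ K), (∀ t, g t ∈ S) →
      ∑ t, C (a t) * map (algebraMap K L) (g t) =
        ∑ b ∈ (∑ t, C (a t) * map (algebraMap K L) (g t)).support,
          C (coeff b (∑ t, C (a t) * map (algebraMap K L) (g t))) * map (algebraMap K L) (π b) := by
  classical
  obtain ⟨pr, hpr⟩ := LinearMap.exists_leftInverse_of_injective S.subtype (Submodule.ker_subtype S)
  let π : MvPolynomial τ K →ₗ[K] MvPolynomial τ K := S.subtype ∘ₗ pr
  have hπ : ∀ g ∈ S, π g = g := by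
    intro g hg
    have h := LinearMap.congr_fun hpr ⟨g, hg⟩
    have h2 : pr g = ⟨g, hg⟩ := h
    change ((pr g : S) : MvPolynomial τ K) = g
    rw [h2]
  let P : MvPolynomial τ L →ₗ[L] MvPolynomial τ L :=
    (basisMonomials τ L).constr L fun b => map (algebraMap K L) (π (monomial b 1))
  have hPm : ∀ b, P (monomial b 1) = map (algebraMap K L) (π (monomial b 1)) := by
    intro b
    have h := (basisMonomials τ L).constr_basis L (fun b => map (algebraMap K L) (π (monomial b 1))) b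
    rwa [coe_basisMonomials] at h
  have hPc : ∀ b c, P (monomial b c) = C c * map (algebraMap K L) (π (monomial b 1)) := by
    intro b c
    have h1 : (monomial b c : MvPolynomial τ L) = c • monomial b 1 := by
      rw [smul_monomial, smul_eq_mul, mul_one]
    rw [h1, map_smul, hPm, smul_eq_C_mul]
  have hPg : ∀ g : MvPolynomial τ K, P (map (algebraMap K L) g) = map (algebraMap K L) (π g) := by
    intro g
    induction g using MvPolynomial.induction_on' with
    | monomial b a =>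
      rw [map_monomial, hPc]
      have h3 : (monomial b a : MvPolynomial τ K) = a • monomial b 1 := by
        rw [smul_monomial, smul_eq_mul, mul_one]
      rw [h3, map_smul, smul_eq_C_mul, map_mul, map_C]
    | add p q h1 h2 =>
      rw [map_add, map_add, h1, h2, map_add, map_add]
  refine ⟨fun b => π (monomial b 1), fun b => (pr (monomial b 1)).2, fun r a g hg => ?_⟩
  set w := ∑ t, C (a t) * map (algebraMap K L) (g t) with hw
  have h1 : P w = w := by
    rw [hw, map_sum]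
    refine Finset.sum_congr rfl fun t _ => ?_
    rw [← smul_eq_C_mul, map_smul, hPg, hπ _ (hg t)]
  have h2 : P w = ∑ b ∈ w.support, C (coeff b w) * map (algebraMap K L) (π (monomial b 1)) := by
    conv_lhs => rw [w.as_sum]
    rw [map_sum]
    exact Finset.sum_congr rfl fun b _ => hPc b _
  rw [← h2, h1]

namespace FF

variable {K : Type} [Field K] {n d : ℕ} {F : HP K n} (T : FF d F)

theorem h46_div_mem (i j : Fin (n + 2)) : T.x j / T.x i ∈ T.A i :=
  Algebra.subset_adjoin ⟨j, rfl⟩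

theorem h46_loc_mono {M : Lat (n := n) (K := K) T.BB} {i j : Fin (n + 2)} {v : T.BB} (h : v ∈ M i) :
    v ∈ T.loc M i j := ⟨0, by simpa using h⟩

theorem h46_loc_add {M : Lat (n := n) (K := K) T.BB} (hM : T.Stable M) {i j : Fin (n + 2)} {v w : T.BB}
    (hv : v ∈ T.loc M i j) (hw : w ∈ T.loc M i j) : v + w ∈ T.loc M i j := by
  obtain ⟨N, hN⟩ := hv
  obtain ⟨N', hN'⟩ := hw
  refine ⟨N + N', ?_⟩
  rw [smul_add]
  refine Submodule.add_mem _ ?_ ?_
  · rw [add_comm, pow_add, mul_smul]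
    exact hM i _ (Subalgebra.pow_mem _ (T.h46_div_mem i j) _) _ hN
  · rw [pow_add, mul_smul]
    exact hM i _ (Subalgebra.pow_mem _ (T.h46_div_mem i j) _) _ hN'

theorem h46_loc_neg {M : Lat (n := n) (K := K) T.BB} {i j : Fin (n + 2)} {v : T.BB}
    (hv : v ∈ T.loc M i j) : -v ∈ T.loc M i j := by
  obtain ⟨N, hN⟩ := hv
  refine ⟨N, ?_⟩
  rw [smul_neg]
  exact Submodule.neg_mem _ hN

/-- KEY: `GP e` and `GG (e-1)` meet in `GP (e-1)`. -/
theorem h46_inter (i : Fin (n + 2)) (hu : ∀ j, T.u i j ∈ T.A i)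
    (hs : ∃ c : Fin (n + 2) → T.L, (∀ j, c j ∈ T.A i) ∧ c i = 0 ∧ ∑ j, c j * T.u i j = 1)
    (hσ : ∀ j, Function.Injective (T.σ i j)) (k p : ℕ) (e : ℤ) (m q : ℕ)
    (hst : T.Stable (T.GP k p (e - 1) m q))
    (hGG : ∀ (j : Fin (n + 1)) (v : T.BB), v ∈ T.GG k (e - 1) m q i →
      ∃ w : T.BB, v = T.σ i j w ∧ ∀ b, coeff b w ≠ 0 → coeff b w ∈ T.locA (e - 1) i (i.succAbove j))
    (hGP : ∀ (j : Fin (n + 1)) (v : T.BB), v ∈ T.GP k p e m q i →
      ∃ (r : ℕ) (a : Fin r → T.L) (g : Fin r → MvPolynomial (ℕ × Fin n) K), (∀ t, g t ∈ IP K n k p m q) ∧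
      v = T.σ i j (∑ t, C (a t) * map (algebraMap K T.L) (g t)))
    (hGP' : ∀ (j : Fin (n + 1)) (r : ℕ) (a : Fin r → T.L) (g : Fin r → MvPolynomial (ℕ × Fin n) K),
      (∀ t, g t ∈ IP K n k p m q) → (∀ t, a t ∈ T.locA (e - 1) i (i.succAbove j)) →
      ∃ N : ℕ, C (T.u i (i.succAbove j)) ^ N * T.σ i j (∑ t, C (a t) * map (algebraMap K T.L) (g t)) ∈
        T.GP k p (e - 1) m q i)
    (v : T.BB) (h1 : v ∈ T.GP k p e m q i) (h2 : v ∈ T.GG k (e - 1) m q i) :
    v ∈ T.GP k p (e - 1) m q i := by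
  classical
  obtain ⟨π, hπ, hext⟩ := h46_ext (L := T.L) (IP K n k p m q)
  refine T.patch_of i hu hs (T.GP k p (e - 1) m q i) (hst i) v fun j' hj' => ?_
  obtain ⟨j, rfl⟩ := Fin.exists_succAbove_eq hj'
  obtain ⟨r, a, g, hg, hv⟩ := hGP j v h1
  obtain ⟨w, hw, hwc⟩ := hGG j v h2
  have hww : ∑ t, C (a t) * map (algebraMap K T.L) (g t) = w := hσ j (by rw [← hv, ← hw])
  have hx := hext r a g hg
  rw [hww] at hx
  let f : Fin w.support.card ≃ w.support := w.support.equivFin.symm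
  obtain ⟨N, hN⟩ := hGP' j w.support.card (fun t => coeff (f t : ℕ × Fin n →₀ ℕ) w)
    (fun t => π (f t : ℕ × Fin n →₀ ℕ)) (fun t => hπ _)
    (fun t => hwc _ (mem_support_iff.1 (f t).2))
  refine ⟨N, ?_⟩
  have hsum : ∑ t, C (coeff (f t : ℕ × Fin n →₀ ℕ) w) * map (algebraMap K T.L) (π (f t : ℕ × Fin n →₀ ℕ)) = w := by
    rw [f.sum_comp fun b : w.support => C (coeff (b : ℕ × Fin n →₀ ℕ) w) *
      map (algebraMap K T.L) (π (b : ℕ × Fin n →₀ ℕ))]
    rw [Finset.sum_coe_sort w.support fun b => C (coeff b w) * map (algebraMap K T.L) (π b)]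
    exact hx.symm
  rw [hsum, ← hw, ← C_pow, ← smul_eq_C_mul] at hN
  exact hN

/-- YB1, over the other rows. -/
theorem yb1_of (hu : ∀ i j, T.u i j ∈ T.A i)
    (hs : ∀ i, ∃ c : Fin (n + 2) → T.L, (∀ j, c j ∈ T.A i) ∧ c i = 0 ∧ ∑ j, c j * T.u i j = 1)
    (hσ : ∀ i j, Function.Injective (T.σ i j)) (k p : ℕ) (e : ℤ) (m q : ℕ)
    (hst : T.Stable (T.GP k p (e - 1) m q)) (hst2 : T.Stable (T.GG k (e - 1) m q))
    (hst3 : T.Stable (T.GP k p e m q))
    (hsy : T.Sym (T.GG k (e - 1) m q)) (hsy3 : T.Sym (T.GP k p e m q))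
    (hle : ∀ i, T.GP k p (e - 1) m q i ≤ T.GG k (e - 1) m q i)
    (hGG : ∀ (i : Fin (n + 2)) (j : Fin (n + 1)) (v : T.BB), v ∈ T.GG k (e - 1) m q i →
      ∃ w : T.BB, v = T.σ i j w ∧ ∀ b, coeff b w ≠ 0 → coeff b w ∈ T.locA (e - 1) i (i.succAbove j))
    (hGP : ∀ (i : Fin (n + 2)) (j : Fin (n + 1)) (v : T.BB), v ∈ T.GP k p e m q i →
      ∃ (r : ℕ) (a : Fin r → T.L) (g : Fin r → MvPolynomial (ℕ × Fin n) K), (∀ t, g t ∈ IP K n k p m q) ∧
      v = T.σ i j (∑ t, C (a t) * map (algebraMap K T.L) (g t)))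
    (hGP' : ∀ (i : Fin (n + 2)) (j : Fin (n + 1)) (r : ℕ) (a : Fin r → T.L)
      (g : Fin r → MvPolynomial (ℕ × Fin n) K),
      (∀ t, g t ∈ IP K n k p m q) → (∀ t, a t ∈ T.locA (e - 1) i (i.succAbove j)) →
      ∃ N : ℕ, C (T.u i (i.succAbove j)) ^ N * T.σ i j (∑ t, C (a t) * map (algebraMap K T.L) (g t)) ∈
        T.GP k p (e - 1) m q i)
    (h0 : T.H1zero (T.GP k p (e - 1) m q)) (g : Fin (n + 2) → T.BB)
    (hg : ∀ i, g i ∈ T.GP k p e m q i ⊔ T.GG k (e - 1) m q i)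
    (hc : ∀ i j, g i - g j ∈ T.loc (T.GG k (e - 1) m q) i j) :
    Cob (T.GG k (e - 1) m q) g := by
  have hg2 : ∀ i, ∃ c ∈ T.GP k p e m q i, ∃ h ∈ T.GG k (e - 1) m q i, c + h = g i :=
    fun i => Submodule.mem_sup.1 (hg i)
  choose c hc1 h hh hch using hg2
  have hcoc : T.Cocyc (T.GP k p (e - 1) m q) c := by
    intro i j
    have h1 : c i - c j ∈ T.loc (T.GG k (e - 1) m q) i j := by
      have h3 : c i - c j = (g i - g j) + (-h i + h j) := by
        rw [← hch i, ← hch j]; ring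
      rw [h3]
      refine T.h46_loc_add hst2 (hc i j) (T.h46_loc_add hst2 ?_ ?_)
      · exact T.h46_loc_neg (T.h46_loc_mono (hh i))
      · rw [hsy i j]
        exact T.h46_loc_mono (hh j)
    have h2 : c i - c j ∈ T.loc (T.GP k p e m q) i j := by
      rw [sub_eq_add_neg]
      refine T.h46_loc_add hst3 (T.h46_loc_mono (hc1 i)) (T.h46_loc_neg ?_)
      rw [hsy3 i j]
      exact T.h46_loc_mono (hc1 j)
    obtain ⟨N, hN⟩ := h1
    obtain ⟨N', hN'⟩ := h2
    refine ⟨N + N', ?_⟩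
    refine T.h46_inter i (hu i) (hs i) (hσ i) k p e m q hst (hGG i) (hGP i) (hGP' i) _ ?_ ?_
    · rw [pow_add, mul_smul]
      exact hst3 i _ (Subalgebra.pow_mem _ (T.h46_div_mem i j) _) _ hN'
    · rw [add_comm, pow_add, mul_smul]
      exact hst2 i _ (Subalgebra.pow_mem _ (T.h46_div_mem i j) _) _ hN
  obtain ⟨w, hw⟩ := h0 c hcoc
  refine ⟨w, fun i => ?_⟩
  have h3 : g i - w = (c i - w) + h i := by
    rw [← hch i]; ring
  rw [h3]
  exact Submodule.add_mem _ (hle i (hw i)) (hh i)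

end FF

end Pool.Agent.H47.UG
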