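import Pool.Agent.H46.UG.Yb1
import Pool.Agent.H45.UG.LocGP
import Pool.Agent.H1.UG.LocGGF
import Pool.Agent.H47.UG.Det
import Pool.Agent.H47.UG.GPle
import Pool.Agent.H65.UG.Sym
import Pool.Agent.H25.UG.SigF

/-!
# YB1, final form
-/

set_option autoImplicit false

open MvPolynomial

namespace Pool.Agent.H47.UG.FF

variable {K : Type} [Field K] [CharZero K] {n d : ℕ} {F : HP K n} (T : FF d F) (hF : Nice d F)

include hF

theorem h46_loc_GP (hd : 2 ≤ d) (k p : ℕ) (e : ℤ) (m q : ℕ) (i : Fin (n + 2)) (j : Fin (n + 1)) (v : T.BB) :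
    (∃ N : ℕ, C (T.u i (i.succAbove j)) ^ N * v ∈ T.GP k p e m q i) ↔
    ∃ (r : ℕ) (a : Fin r → T.L) (g : Fin r → MvPolynomial (ℕ × Fin n) K), (∀ t, g t ∈ IP K n k p m q) ∧
      (∀ t, a t ∈ T.locA e i (i.succAbove j)) ∧
      v = T.σ i j (∑ t, C (a t) * map (algebraMap K T.L) (g t)) :=
  H45.UG.loc_GP_of T (fun k e m q i j v => T.loc_GG hF hd k e m q i j v)
    (fun _ i j c => T.det_y hF hd i j c) (T.fd_ne hF hd) (T.u_mem hF) k p e m q i j v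

/-- KEY -/
theorem h46_inter_GP (hd : 2 ≤ d) (k p : ℕ) (e : ℤ) (m q : ℕ) (i : Fin (n + 2)) (v : T.BB)
    (h1 : v ∈ T.GP k p e m q i) (h2 : v ∈ T.GG k (e - 1) m q i) : v ∈ T.GP k p (e - 1) m q i := by
  refine T.h46_inter i (T.u_mem hF i) (T.smoothA hF hd i) (fun j => (T.σ_bij hF hd i j).1) k p e m q
    (T.stable_GP hF k p (e - 1) m q) ?_ ?_ ?_ v h1 h2
  · intro j v hv
    obtain ⟨w, hw, hw2⟩ := (T.loc_GG hF hd k (e - 1) m q i j v).1 ⟨0, by simpa using hv⟩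
    exact ⟨w, hw, fun b hb => (hw2 b hb).2.2.2⟩
  · intro j v hv
    obtain ⟨r, a, g, hg, _, hv2⟩ := (T.h46_loc_GP hF hd k p e m q i j v).1 ⟨0, by simpa using hv⟩
    exact ⟨r, a, g, hg, hv2⟩
  · intro j r a g hg ha
    exact (T.h46_loc_GP hF hd k p (e - 1) m q i j _).2 ⟨r, a, g, hg, ha, rfl⟩

/-- YB1 -/
theorem yb1 (hd : 2 ≤ d) (k p : ℕ) (e : ℤ) (m q : ℕ)
    (h0 : T.H1zero (T.GP k p (e - 1) m q)) (g : Fin (n + 2) → T.BB)
    (hg : ∀ i, g i ∈ T.GP k p e m q i ⊔ T.GG k (e - 1) m q i)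
    (hc : ∀ i j, g i - g j ∈ T.loc (T.GG k (e - 1) m q) i j) :
    Cob (T.GG k (e - 1) m q) g := by
  refine T.yb1_of (T.u_mem hF) (T.smoothA hF hd) (fun i j => (T.σ_bij hF hd i j).1) k p e m q
    (T.stable_GP hF k p (e - 1) m q) (T.stable_GG hF k (e - 1) m q) (T.stable_GP hF k p e m q)
    (T.sym_GG hF k (e - 1) m q) (T.sym_GP hF k p e m q) (fun i => T.GP_le hF hd k p (e - 1) m q i)
    ?_ ?_ ?_ h0 g hg hc
  · intro i j v hv
    obtain ⟨w, hw, hw2⟩ := (T.loc_GG hF hd k (e - 1) m q i j v).1 ⟨0, by simpa using hv⟩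
    exact ⟨w, hw, fun b hb => (hw2 b hb).2.2.2⟩
  · intro i j v hv
    obtain ⟨r, a, g, hg, _, hv2⟩ := (T.h46_loc_GP hF hd k p e m q i j v).1 ⟨0, by simpa using hv⟩
    exact ⟨r, a, g, hg, hv2⟩
  · intro i j r a g hg ha
    exact (T.h46_loc_GP hF hd k p (e - 1) m q i j _).2 ⟨r, a, g, hg, ha, rfl⟩

end Pool.Agent.H47.UG.FF
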